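import Pool.Agent.N897.FO.Main
import Pool.Agent.Results.MP_d4e2f9_lc.AlmostAllDegrees

/-!
# Weak evasiveness for small transitive groups: few exceptional numbers of variables

The starting theorem `AlmostAllDegrees` shows that for almost all numbers `n` of variables every non-constant monotone
Boolean function which is invariant under a transitive group of order `n ^ (1 + o(1))` has decision tree complexity
`n ^ (1 - o(1))`; the number of the exceptional `n ≤ x` is there at most `η x`, with `η` fixed. Here the number of exceptions is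
bounded: let `ε > 0`. For all `n ≤ x` but at most `K x exp (- c √(log x))` every non-constant monotone Boolean function of `n`
variables which is invariant under a transitive group of order at most `n exp (√(log n) / 8)`, of any structure, has decision
tree complexity at least `n ^ (1 - ε)`. The same holds for the numbers of variables `F (n)`, where `F` is a composition of `k`
additive functions (such as the sum of the prime factors) or similar functions (the largest prime factor, Kempner's
function), for all `n ≤ x` but `K x exp (- c (log x) ^ (1 / (k + 2)))`.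

Proof. As for the starting theorem it is sufficient to count the `n ≤ x` which are divisible by the square of a prime `p > y`,
or by `p d` with `d > 1`, `d ≡ 1` modulo `p` (up to small factors), or with a `y`-smooth part larger than `n ^ (2 ε)`; there
`y = exp √(log x)` and Rankin's method is used (`Pool/Agent/N897/FO`, helper897). The preimages under functions dominated by
the largest prime factor of thin sets are thin (`Pool/Agent/N375/AV`, helper375).
-/

set_option autoImplicit false

namespace Pool.Agent.Results.MP_d4e2f9_lc.FewExceptionalDegrees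

open Pool.Agent.N897.FO (S orders values)
open Pool.Agent.N375.AV (PD comp pd_additive pd_largest pd_kempner)
open Pool.Agent.TH669.AD (GoodDeg good_bound FS_dec)
open Pool.Agent.Results.MP_d4e2f9_lc.AlmostAllDegrees (DepthLe Trans)

/-- Every non-constant monotone function of `n` variables which is invariant under a transitive group of order at most
`S n * n`, `S n = ⌊exp (√(log n) / 8)⌋`, has decision tree complexity at least `n ^ (1 - ε)`. -/
def AlmostEvasive (ε : ℝ) (n : ℕ) : Prop :=
  ∀ G : Subgroup (Equiv.Perm (Fin n)), Trans G → Nat.card G ≤ S n * n →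
    ∀ f : (Fin n → Bool) → Bool, Monotone f → (∃ x y, f x ≠ f y) →
      (∀ σ ∈ G, ∀ x : Fin n → Bool, f (x ∘ σ) = f x) →
      ∀ k : ℕ, DepthLe k f → (n : ℝ) ^ (1 - ε) ≤ k

lemma almostEvasive {ε : ℝ} {n y : ℕ} (h0 : 0 < n) (h1 : S n ≤ y)
    (h3 : GoodDeg y (S n) ((n : ℝ) ^ (2 * ε)) n) : AlmostEvasive ε n := by
  intro G htr hG f hf hne hinv k hk
  have hn0 : (0 : ℝ) < n := by exact_mod_cast h0
  have h := good_bound (Real.rpow_nonneg hn0.le _) h1 h3 h0 G htr hG f hf hne hinv (FS_dec hk)
  have h4 : (n : ℝ) ^ (2 * ε) * (k : ℝ) ^ 2 = ((n : ℝ) ^ ε * k) ^ 2 := by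
    rw [mul_pow, ← Real.rpow_natCast ((n : ℝ) ^ ε) 2, ← Real.rpow_mul hn0.le]
    congr 2
    push_cast
    ring
  rw [h4] at h
  have h5 : (n : ℝ) ≤ (n : ℝ) ^ ε * k :=
    (sq_le_sq₀ hn0.le (mul_nonneg (Real.rpow_nonneg hn0.le _) (Nat.cast_nonneg k))).1 h
  have h6 : (n : ℝ) = (n : ℝ) ^ ε * (n : ℝ) ^ (1 - ε) := by
    rw [← Real.rpow_add hn0]
    have : ε + (1 - ε) = 1 := by ring
    rw [this, Real.rpow_one]
  have h7 : 0 < (n : ℝ) ^ ε := Real.rpow_pos_of_pos hn0 _
  refine le_of_mul_le_mul_left ?_ h7
  rw [← h6]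
  exact h5

/-- **Few exceptional degrees.** (1) Let `ε > 0`. For all `n ≤ x` but at most `K x exp (- c √(log x))` every non-constant
monotone function of `n` variables invariant under a transitive group of order at most `S n * n` has decision tree complexity
at least `n ^ (1 - ε)`. (2) The same for the numbers `F (n)`, `F` a composition of `k` functions dominated by the largest
prime factor, for all `n ≤ x` but `K x exp (- c (log x) ^ (1 / (k + 2)))`. (3) Examples of such functions. -/
theorem result :
    (∀ ε : ℝ, 0 < ε → ∃ c K : ℝ, 0 < c ∧ ∀ x : ℕ, 1 ≤ x →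
      ({n : ℕ | 1 ≤ n ∧ n ≤ x ∧ ¬ AlmostEvasive ε n}.ncard : ℝ) ≤ K * x * Real.exp (-(c * √(Real.log x)))) ∧
    (∀ ε : ℝ, 0 < ε → ∀ fs : List (ℕ → ℕ), (∀ f ∈ fs, PD f) → ∃ c K : ℝ, 0 < c ∧ ∀ x : ℕ, 1 ≤ x →
      ({n : ℕ | 1 ≤ n ∧ n ≤ x ∧ ¬ AlmostEvasive ε (comp fs n)}.ncard : ℝ) ≤
        K * x * Real.exp (-(c * Real.log x ^ (1 / ((fs.length : ℝ) + 2))))) ∧
    (∀ f : ℕ → ℕ, (∀ a b : ℕ, Nat.Coprime a b → f (a * b) = f a + f b) →
      (∃ C : ℕ, ∀ q j : ℕ, q.Prime → 1 ≤ j → f (q ^ j) ≤ C * q ^ j) →
      (∃ P : ℕ, ∀ p q : ℕ, p.Prime → q.Prime → P ≤ p → P ≤ q → f p = f q → p = q) → PD f) ∧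
    (PD (fun n => n.primeFactors.sup id) ∧ PD (fun n => sInf {k : ℕ | n ∣ k.factorial})) := by
  refine ⟨fun ε hε => ?_, fun ε hε fs hfs => ?_, fun f a1 a2 a3 => pd_additive a1 a2 a3, ⟨pd_largest, pd_kempner⟩⟩
  · exact orders (ε := 2 * ε) (by positivity) 0 (fun m y _ h0 h1 _ h3 => almostEvasive h0 h1 h3)
  · exact values (ε := 2 * ε) (by positivity) 0 (fun m y _ h0 h1 _ h3 => almostEvasive h0 h1 h3) fs hfs

end Pool.Agent.Results.MP_d4e2f9_lc.FewExceptionalDegrees
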